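import Pool.Agent.Helper98.EY.StmtsB
import Pool.Agent.Helper91.EX.DT1

/-!
# EY, module DT3: deterministic theorem 3
-/

namespace Pool.Agent.Helper98.EX

open Finset

variable {N : ℕ}

/-- few misplaced particles imply that the configuration is above `zet` -/
theorem dt3_zet {k n : ℕ} (hk : k ≤ N) (h1 : n ≤ k) (h2 : n ≤ N - k) {ξ : Cfg N}
    (hξ : ht ξ 0 = k) (h : cnt ξ 0 (N - k) ≤ n) : hle 0 (zet N 0 N (N - k) n) ξ := by
  apply dt1_zet hk h1 h2 hξ
  intro x hx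
  have e := ht_cnt ξ (Nat.zero_le (N - k)) (by omega : N - k ≤ N)
  rw [hξ] at e
  rcases le_total x (N - k) with c | c
  · have := ht_anti ξ c
    omega
  · have := ht_le_sub ξ c
    omega

/-- large `N` -/
theorem dt3_large {γ Λ K0 c' : ℝ} (hγ : 0 < γ) (hK0 : 1 ≤ K0) (hc' : 0 < c') :
    ∃ N0 : ℕ, ∀ N : ℕ, N0 ≤ N → 3 ≤ N ∧ Λ ≤ Real.log N ∧
      K0 * Real.log N ^ 40 ≤ (N : ℝ) ^ γ ∧ K0 * Real.log N ^ 40 ≤ (N : ℝ) ^ (1 / 100 : ℝ) ∧
      (N : ℝ) ^ (-5 : ℝ) ≤ c' := by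
  have t1 : ∀ s : ℝ, 0 < s →
      ∀ᶠ n : ℕ in Filter.atTop, K0 * Real.log n ^ 40 ≤ (n : ℝ) ^ s := by
    intro s hs
    have h1 := (isLittleO_log_rpow_rpow_atTop (40 : ℝ) hs).def (by positivity : 0 < 1 / K0)
    have h2 := (tendsto_natCast_atTop_atTop (R := ℝ)).eventually h1
    filter_upwards [h2, Filter.eventually_ge_atTop 1] with n hn hn1
    have hn1' : (1 : ℝ) ≤ n := by exact_mod_cast hn1
    have hl : 0 ≤ Real.log n := Real.log_nonneg hn1'
    rw [Real.norm_of_nonneg (Real.rpow_nonneg hl _),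
      Real.norm_of_nonneg (Real.rpow_nonneg (by linarith) _)] at hn
    have e : Real.log (n : ℝ) ^ (40 : ℝ) = Real.log n ^ 40 := by
      exact_mod_cast Real.rpow_natCast (Real.log n) 40
    rw [e] at hn
    have h3 := mul_le_mul_of_nonneg_left hn (by linarith : 0 ≤ K0)
    have e2 : K0 * (1 / K0 * (n : ℝ) ^ s) = (n : ℝ) ^ s := by
      field_simp
    rwa [e2] at h3
  have t2 : ∀ᶠ n : ℕ in Filter.atTop, (n : ℝ) ^ (-5 : ℝ) ≤ c' := by
    have h1 := (tendsto_rpow_neg_atTop (by norm_num : (0 : ℝ) < 5)).comp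
      (tendsto_natCast_atTop_atTop (R := ℝ))
    filter_upwards [h1.eventually (ge_mem_nhds hc')] with n hn
    exact hn
  have t3 : ∀ᶠ n : ℕ in Filter.atTop, Λ ≤ Real.log n :=
    (Real.tendsto_log_atTop.comp (tendsto_natCast_atTop_atTop (R := ℝ))).eventually
      (Filter.eventually_ge_atTop Λ)
  obtain ⟨N0, hN0⟩ := Filter.eventually_atTop.1 ((Filter.eventually_ge_atTop 3).and
    ((t3).and ((t1 γ hγ).and ((t1 (1 / 100) (by norm_num)).and t2))))
  exact ⟨N0, fun N hN => hN0 N hN⟩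

/-- the censored evolution: from the height estimate and the brigade to few misplaced particles -/
theorem dt3_two {k n n1 m M2 : ℕ} {r l l' : ℕ → ℝ} {σ : ℕ → Finset ℕ} {a b : ℝ}
    (hC : ST_CENS) (hR : ST_RATE) (hk : k ≤ N) (hl : Adm N r l) (hl' : Adm N r l')
    (hll : ∀ x, 1 ≤ x → x < N → l x ≤ l' x) (hσ : ∀ i, σ i ⊆ full N) (hb : 0 ≤ b)
    (h1 : pr r l (fun _ => full N) m {ξ | n < cnt ξ 0 (N - k)} (bot N k) ≤ a)
    (h2 : ∀ η : Cfg N, ht η 0 = k → cnt η 0 (N - k) ≤ n →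
      pr r l' σ M2 {ξ | n1 < cnt ξ 0 (N - k)} η ≤ b) :
    pr r l (fun _ => full N) (m + M2) {ξ | n1 < cnt ξ 0 (N - k)} (bot N k) ≤ a + b := by
  set G : Set (Cfg N) := {ξ | cnt ξ 0 (N - k) ≤ n1} with hG
  have eG : {ξ : Cfg N | n1 < cnt ξ 0 (N - k)} = Gᶜ := by
    ext ξ
    simp [hG]
  have hInc : Inc k (ind G) := by
    apply pr_Inc_ind
    intro η ξ h3 h4 h5 h6
    have e1 := ht_cnt η (Nat.zero_le (N - k)) (by omega : N - k ≤ N)
    have e2 := ht_cnt ξ (Nat.zero_le (N - k)) (by omega : N - k ≤ N)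
    have h7 := h5 (N - k)
    have h6' : cnt η 0 (N - k) ≤ n1 := h6
    show cnt ξ 0 (N - k) ≤ n1
    omega
  rw [eG] at h2 ⊢
  have s1 : pr r l (fun _ => full N) (m + M2) Gᶜ (bot N k) ≤
      pr r l (cat m (fun _ => full N) σ) (m + M2) Gᶜ (bot N k) := by
    rw [pr_compl, pr_compl]
    have := hC N k r l (fun _ => full N) (cat m (fun _ => full N) σ) (m + M2) (ind G) hk hl
      (by
        intro i
        unfold cat
        split_ifs
        · exact subset_rfl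
        · exact hσ _) hInc
    unfold pr
    linarith
  refine s1.trans ?_
  apply pr_cat_fail hl (k := k) (A := {ξ | cnt ξ 0 (N - k) ≤ n}) _ _ _ _ (ht_bot_zero hk) _ hb
  · intro η h3 h4
    refine le_trans ?_ (h2 η h3 h4)
    rw [pr_compl, pr_compl]
    have := hR N k r l l' σ M2 (ind G) η hl hl' hll hInc h3
    unfold pr
    linarith
  · refine le_trans (le_of_eq ?_) h1
    congr 1
    ext ξ
    simp

/-- numeric relations between `κ`, `θ` and the time -/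
theorem dt3_num {L S Nr κ : ℝ} (hL : 2 ≤ L) (hS : 0 < S) (hN : 0 < Nr) (hκ : 0 ≤ κ)
    (h : S * L ^ 100 ≤ Nr) (hk : κ ≤ 2 * L ^ 9 * S ^ 2 / Nr) :
    κ < S / L ^ 15 ∧ Nr * L ^ 25 * κ ^ 2 < (S / L ^ 15) ^ 3 := by
  have hL0 : 0 < L := by linarith
  have h1 : κ * Nr ≤ 2 * L ^ 9 * S ^ 2 := by rwa [le_div_iff₀ hN] at hk
  have h2 : κ * L ^ 91 ≤ 2 * S := by
    have h3 : κ * (S * L ^ 100) ≤ 2 * L ^ 9 * S ^ 2 :=
      (mul_le_mul_of_nonneg_left h hκ).trans h1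
    have h4 : (κ * L ^ 91) * (S * L ^ 9) ≤ (2 * S) * (S * L ^ 9) := by
      have e1 : (κ * L ^ 91) * (S * L ^ 9) = κ * (S * L ^ 100) := by ring
      have e2 : (2 * S) * (S * L ^ 9) = 2 * L ^ 9 * S ^ 2 := by ring
      rw [e1, e2]
      exact h3
    exact le_of_mul_le_mul_right h4 (by positivity)
  have p12 : (4 : ℝ) < L ^ 12 := by
    have : (2 : ℝ) ^ 12 ≤ L ^ 12 := pow_le_pow_left₀ (by norm_num) hL 12
    norm_num at this
    linarith
  have p76 : (2 : ℝ) < L ^ 76 := by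
    have : (2 : ℝ) ^ 76 ≤ L ^ 76 := pow_le_pow_left₀ (by norm_num) hL 76
    norm_num at this
    linarith
  constructor
  · rw [lt_div_iff₀ (by positivity)]
    have h5 : (κ * L ^ 15) * L ^ 76 ≤ 2 * S := by
      have e1 : (κ * L ^ 15) * L ^ 76 = κ * L ^ 91 := by ring
      rw [e1]
      exact h2
    have h6 : 2 * S < S * L ^ 76 := by nlinarith
    have h7 : (κ * L ^ 15) * L ^ 76 < S * L ^ 76 := by linarith
    exact lt_of_mul_lt_mul_right h7 (by positivity)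
  · have e3 : (S / L ^ 15) ^ 3 = S ^ 3 / L ^ 45 := by
      rw [div_pow]
      ring
    rw [e3, lt_div_iff₀ (by positivity)]
    have h8 : (κ * Nr) * (κ * L ^ 91) ≤ (2 * L ^ 9 * S ^ 2) * (2 * S) :=
      mul_le_mul h1 h2 (by positivity) (by positivity)
    have h9 : (Nr * L ^ 25 * κ ^ 2 * L ^ 45) * L ^ 21 ≤ (4 * S ^ 3) * L ^ 9 := by
      have e1 : (Nr * L ^ 25 * κ ^ 2 * L ^ 45) * L ^ 21 = (κ * Nr) * (κ * L ^ 91) := by ring
      have e2 : (4 * S ^ 3) * L ^ 9 = (2 * L ^ 9 * S ^ 2) * (2 * S) := by ring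
      rw [e1, e2]
      exact h8
    have h10 : (4 * S ^ 3) * L ^ 9 < (S ^ 3 * L ^ 12) * L ^ 9 := by
      have : 0 < S ^ 3 := by positivity
      have h11 : 4 * S ^ 3 < S ^ 3 * L ^ 12 := by nlinarith
      exact mul_lt_mul_of_pos_right h11 (by positivity)
    have e4 : (S ^ 3 * L ^ 12) * L ^ 9 = S ^ 3 * L ^ 21 := by ring
    have h12 : (Nr * L ^ 25 * κ ^ 2 * L ^ 45) * L ^ 21 < S ^ 3 * L ^ 21 := by
      rw [← e4]
      exact lt_of_le_of_lt h9 h10
    exact lt_of_mul_lt_mul_right h12 (by positivity)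

/-- duration of the brigade -/
theorem dt3_dur {L S Nr δ n t : ℝ} (hL : 2 ≤ L) (hS : 1 ≤ S) (hN : 0 < Nr) (hδ : 0 < δ)
    (hLd : 144 / δ ≤ L) (hNL : 18 / δ * L ^ 40 ≤ Nr) (hn0 : 0 ≤ n) (hn : n ≤ 3 * S * L ^ 2)
    (ht : t ≤ 8 * Nr * L ^ 12 * (S / L ^ 15) + 1) :
    3 * t * n ≤ δ / 2 * (S ^ 2 * (2 * Nr)) := by
  have hL0 : 0 < L := by linarith
  have e1 : 8 * Nr * L ^ 12 * (S / L ^ 15) = 8 * Nr * S / L ^ 3 := by
    field_simp
  rw [e1] at ht
  have h1 : 3 * t * n ≤ 3 * (8 * Nr * S / L ^ 3 + 1) * (3 * S * L ^ 2) := by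
    apply mul_le_mul _ hn hn0 (by positivity)
    linarith
  have e2 : 3 * (8 * Nr * S / L ^ 3 + 1) * (3 * S * L ^ 2) = 72 * Nr * S ^ 2 / L + 9 * S * L ^ 2 := by
    field_simp
    ring
  rw [e2] at h1
  have h2 : 72 * Nr * S ^ 2 / L ≤ δ / 2 * (Nr * S ^ 2) := by
    rw [div_le_iff₀ hL0]
    rw [div_le_iff₀ hδ] at hLd
    have : 0 < Nr * S ^ 2 := by positivity
    nlinarith
  have h3 : 9 * S * L ^ 2 ≤ δ / 2 * (Nr * S ^ 2) := by
    have h4 : 18 / δ * L ^ 2 ≤ Nr := by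
      refine le_trans ?_ hNL
      apply mul_le_mul_of_nonneg_left _ (by positivity)
      exact pow_le_pow_right₀ (by linarith) (by norm_num)
    have e3 : 18 / δ * L ^ 2 = 18 * L ^ 2 / δ := by ring
    rw [e3, div_le_iff₀ hδ] at h4
    have h5 : S ≤ S ^ 2 := by nlinarith
    have h6 : 9 * S * L ^ 2 ≤ δ / 2 * Nr * S := by nlinarith
    have h7 : δ / 2 * Nr * S ≤ δ / 2 * Nr * S ^ 2 :=
      mul_le_mul_of_nonneg_left h5 (by positivity)
    linarith
  linarith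

/-- duration of the final stage -/
theorem dt3_fin {L S Nr δ g as n1 : ℝ} (hL : 2 ≤ L) (hS : 0 < S) (hN : 0 < Nr) (hδ : 0 < δ)
    (h : S * L ^ 100 ≤ Nr) (hn : n1 ≤ L ^ 25 * Nr / S + 1) (has : 1 ≤ as)
    (hg : 1408 / δ * L ^ 40 ≤ g) (hT : Nr * (g * g) * as ≤ S ^ 3) :
    16 * ((3 * n1 + 5) * (g * (as + 1))) ≤ δ / 4 * S ^ 2 := by
  have hL0 : 0 < L := by linarith
  have hL1 : 1 ≤ L := by linarith
  have hg0 : 0 < g := lt_of_lt_of_le (by positivity) hg
  have h1 : 1 ≤ L ^ 25 * Nr / S := by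
    rw [le_div_iff₀ hS]
    have h2 : S * 1 ≤ S * L ^ 100 := mul_le_mul_of_nonneg_left (one_le_pow₀ hL1) hS.le
    have h3 : 1 * Nr ≤ L ^ 25 * Nr := mul_le_mul_of_nonneg_right (one_le_pow₀ hL1) hN.le
    linarith
  have h2 : 3 * n1 + 5 ≤ 11 * (L ^ 25 * Nr / S) := by linarith
  have h3 : 16 * ((3 * n1 + 5) * (g * (as + 1))) ≤
      16 * ((11 * (L ^ 25 * Nr / S)) * (g * (2 * as))) := by
    apply mul_le_mul_of_nonneg_left _ (by norm_num)
    apply mul_le_mul h2 _ (by positivity) (by positivity)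
    apply mul_le_mul_of_nonneg_left _ hg0.le
    linarith
  refine h3.trans ?_
  have h4 : (16 * ((11 * (L ^ 25 * Nr / S)) * (g * (2 * as)))) * g ≤ (δ / 4 * S ^ 2) * g := by
    have e1 : (16 * ((11 * (L ^ 25 * Nr / S)) * (g * (2 * as)))) * g =
        352 * L ^ 25 / S * (Nr * (g * g) * as) := by
      field_simp
      ring
    rw [e1]
    have h5 : 352 * L ^ 25 / S * (Nr * (g * g) * as) ≤ 352 * L ^ 25 / S * S ^ 3 :=
      mul_le_mul_of_nonneg_left hT (by positivity)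
    have e2 : 352 * L ^ 25 / S * S ^ 3 = 352 * L ^ 25 * S ^ 2 := by
      field_simp
    have h6 : 352 * L ^ 25 ≤ δ / 4 * g := by
      have h7 : 1408 / δ * L ^ 25 ≤ g := by
        refine le_trans ?_ hg
        apply mul_le_mul_of_nonneg_left _ (by positivity)
        exact pow_le_pow_right₀ hL1 (by norm_num)
      have e3 : 1408 / δ * L ^ 25 = 1408 * L ^ 25 / δ := by ring
      rw [e3, div_le_iff₀ hδ] at h7
      linarith
    have h8 : 352 * L ^ 25 * S ^ 2 ≤ δ / 4 * g * S ^ 2 :=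
      mul_le_mul_of_nonneg_right h6 (by positivity)
    have e4 : δ / 4 * S ^ 2 * g = δ / 4 * g * S ^ 2 := by ring
    rw [e4]
    linarith
  exact le_of_mul_le_mul_right h4 hg0

theorem st_DT3 (hB : ST_BRIG2) (hF : ST_FIN) (hH : ST_HT) (hC : ST_CENS) (hR : ST_RATE)
    (hG : ST_GS) : ST_DT3 := by
  intro ε δ γ η0 Cs C1 c1 c m0 hε hε1 hδ hγ hγ1 hη hη1 hCs hC1 hc1 hc11 hc
  obtain ⟨N1, Cf, hCf, hF'⟩ := hF γ η0 (Cs + 1) c1 (ε / 16) m0 hγ hγ1 hη hη1 (by linarith) hc1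
    hc11 (by positivity)
  obtain ⟨N2, hG'⟩ := hG γ hγ hγ1
  obtain ⟨N3, hH'⟩ := hH ε m0 hε
  obtain ⟨N4, hB'⟩ := hB C1 c hC1 hc
  have q1 : 0 ≤ 4 / c := by positivity
  have q2 : 0 ≤ 1408 / δ := by positivity
  have q3 : 0 ≤ 128 * (C1 + 1) / δ := by positivity
  have q4 : 0 ≤ 8 * Cf / δ := by positivity
  have q5 : 0 ≤ 18 / δ := by positivity
  have q6 : 0 ≤ 144 / δ := by positivity
  have q7 : 0 ≤ 6 / c := by positivity
  obtain ⟨N5, hL5⟩ := dt3_large (γ := γ) (Λ := 2 + 144 / δ + 6 / c)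
    (K0 := 64 + 4 / c + 1408 / δ + 128 * (C1 + 1) / δ + 8 * Cf / δ + 18 / δ) (c' := ε / 64) hγ
    (by linarith) (by positivity)
  refine ⟨max (max N1 N2) (max (max N3 N4) N5), ?_⟩
  intro N k r l w m1 as κ hN hck hkc hE hGE hCen hNear hCAP hκ hpr ht1 ht2 ht3
  have hNa : N1 ≤ N := by omega
  have hNb : N2 ≤ N := by omega
  have hNc : N3 ≤ N := by omega
  have hNd : N4 ≤ N := by omega
  obtain ⟨n3, lΛ, lγ, l100, p5⟩ := hL5 N (by omega)
  have hk := hE.kN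
  have hNr : (3 : ℝ) ≤ N := by exact_mod_cast n3
  have hNpos : (0 : ℝ) < N := by linarith
  set L : ℝ := Real.log N with hLdef
  have hL2 : 2 ≤ L := by linarith
  have hL0 : 0 < L := by linarith
  have hL1 : 1 ≤ L := by linarith
  set K0 : ℝ := 64 + 4 / c + 1408 / δ + 128 * (C1 + 1) / δ + 8 * Cf / δ + 18 / δ with hK0
  have hK64 : 64 ≤ K0 := by linarith
  have hL40 : 1 ≤ L ^ 40 := one_le_pow₀ hL1
  have hKL : K0 ≤ K0 * L ^ 40 := le_mul_of_one_le_right (by linarith only [hK64]) hL40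
  have hN100 : (N : ℝ) ^ (1 / 100 : ℝ) ≤ N := by
    calc (N : ℝ) ^ (1 / 100 : ℝ) ≤ (N : ℝ) ^ (1 : ℝ) :=
          Real.rpow_le_rpow_of_exponent_le (by linarith) (by norm_num)
      _ = N := Real.rpow_one _
  have hKN : K0 * L ^ 40 ≤ N := l100.trans hN100
  set t : ℝ := (m1 : ℝ) / (2 * N) with htd
  have ht0 : 0 ≤ t := by positivity
  have hm1 : (m1 : ℝ) = t * (2 * N) := by
    rw [htd]
    field_simp
  set S : ℝ := Real.sqrt t with hS
  have hSS : S ^ 2 = t := Real.sq_sqrt ht0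
  have hS0 : 0 ≤ S := Real.sqrt_nonneg _
  -- lower bound of S
  have hSlow : (N : ℝ) ^ (9 / 16 : ℝ) ≤ S := by
    rw [hS]
    apply Real.le_sqrt_of_sq_le
    have e : ((N : ℝ) ^ (9 / 16 : ℝ)) ^ 2 = (N : ℝ) ^ (9 / 8 : ℝ) := by
      rw [← Real.rpow_natCast, ← Real.rpow_mul hNpos.le]
      norm_num
    rw [e]
    exact ht1
  have hSK : K0 * L ^ 40 ≤ S := by
    refine l100.trans (le_trans ?_ hSlow)
    exact Real.rpow_le_rpow_of_exponent_le (by linarith) (by norm_num)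
  have hS64 : 64 ≤ S := by linarith
  have hSpos : 0 < S := by linarith
  -- upper bound of S
  have hSup : S * L ^ 100 ≤ N := by
    have h1 : (S * L ^ 100) ^ 2 ≤ (N : ℝ) ^ 2 := by
      rw [le_div_iff₀ (by positivity)] at ht2
      have e : (S * L ^ 100) ^ 2 = t * L ^ 200 := by
        rw [mul_pow, hSS]
        ring
      rw [e]
      exact ht2
    exact le_of_sq_le_sq h1 hNpos.le
  -- κ is positive
  have hκ0 : 0 ≤ κ := by
    obtain ⟨y, y1, y2, y3, -⟩ := hCAP 1 1 le_rfl le_rfl (by omega) (by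
      have : 0 ≤ L ^ 8 := by positivity
      linarith)
    have hy : y = 1 := by omega
    subst hy
    refine le_trans ?_ y3
    unfold vp RR
    have := (hE.adm 2 (by omega) (by omega)).1
    simp only [Finset.Ioc_self, Finset.prod_empty]
    positivity
  have hnum := dt3_num hL2 hSpos hNpos hκ0 hSup (by
    rw [hSS]
    calc κ ≤ 2 * L ^ 9 * t / N := hκ
      _ = _ := rfl)
  -- number of misplaced particles at the time m1
  set n : ℕ := ⌈(m0 : ℝ) + 2 * (Real.sqrt (t + 1) * L ^ 2)⌉₊ with hn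
  have hsq1 : Real.sqrt (t + 1) ≤ S + 1 := by
    rw [Real.sqrt_le_left (by linarith only [hS0])]
    have e : (S + 1) ^ 2 = S ^ 2 + 2 * S + 1 := by ring
    rw [e, hSS]
    linarith only [hS0]
  have hm0 : (m0 : ℝ) ≤ L ^ 2 := by
    have h1 : (m0 : ℝ) ≤ w := by exact_mod_cast hE.m0w
    have h2 := hE.wlog
    linarith
  have hL2' : 1 ≤ L ^ 2 := one_le_pow₀ hL1
  have hnb : (n : ℝ) ≤ 3 * S * L ^ 2 := by
    have h2 := Nat.ceil_lt_add_one (a := (m0 : ℝ) + 2 * (Real.sqrt (t + 1) * L ^ 2))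
      (by positivity)
    have h3 : Real.sqrt (t + 1) * L ^ 2 ≤ (S + 1) * L ^ 2 :=
      mul_le_mul_of_nonneg_right hsq1 (by positivity)
    have h4 : (n : ℝ) ≤ L ^ 2 + 2 * ((S + 1) * L ^ 2) + 1 := by
      rw [hn]
      linarith only [h2, h3, hm0]
    have h5 : 4 * L ^ 2 ≤ S * L ^ 2 :=
      mul_le_mul_of_nonneg_right (by linarith only [hS64]) (by positivity)
    linarith only [h4, h5, hL2']
  have hncN : (n : ℝ) ≤ c / 2 * N := by
    have h1 : 6 / c ≤ L := by linarith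
    have h2 : L * L ^ 2 ≤ L ^ 100 := by
      have e : L * L ^ 2 = L ^ 3 := by ring
      rw [e]
      exact pow_le_pow_right₀ hL1 (by norm_num)
    have h3 : 6 / c * (S * L ^ 2) ≤ N := by
      have h4 : 6 / c * (S * L ^ 2) ≤ L * (S * L ^ 2) :=
        mul_le_mul_of_nonneg_right h1 (by positivity)
      have h5 : S * (L * L ^ 2) ≤ S * L ^ 100 := mul_le_mul_of_nonneg_left h2 hS0
      linarith
    have e : 6 / c * (S * L ^ 2) = 6 * (S * L ^ 2) / c := by ring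
    rw [e, div_le_iff₀ hc] at h3
    linarith
  obtain ⟨-, hH2⟩ := hH' N k r l m1 hNc hk hE.adm hpr (by
    rw [← htd, ← hSS]
    have h1 : L ^ 2 ≤ L ^ 40 := pow_le_pow_right₀ hL1 (by norm_num)
    have h2 : L ^ 40 ≤ K0 * L ^ 40 :=
      le_mul_of_one_le_left (by positivity) (by linarith only [hK64])
    have h3 : S ≤ S ^ 2 := by nlinarith only [hS64]
    linarith only [h1, h2, h3, hSK])
  obtain ⟨σ, hσ, hσ2⟩ := hB' N k w n r (modl N l) (S / L ^ 15) κ hNd hck hkc hGE hCen hNear hCAP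
    hnum.1 hnum.2 (by
      rw [le_div_iff₀ (by positivity)]
      refine le_trans ?_ hSlow
      have e : (N : ℝ) ^ (9 / 16 : ℝ) = (N : ℝ) ^ (21 / 40 : ℝ) * (N : ℝ) ^ (3 / 80 : ℝ) := by
        rw [← Real.rpow_add hNpos]
        norm_num
      rw [e]
      apply mul_le_mul_of_nonneg_left _ (Real.rpow_nonneg hNpos.le _)
      have h1 : L ^ 15 ≤ L ^ 40 := pow_le_pow_right₀ hL1 (by norm_num)
      have h2 : L ^ 40 ≤ K0 * L ^ 40 :=
        le_mul_of_one_le_left (by positivity) (by linarith only [hK64])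
      have h3 : (N : ℝ) ^ (1 / 100 : ℝ) ≤ (N : ℝ) ^ (3 / 80 : ℝ) :=
        Real.rpow_le_rpow_of_exponent_le (by linarith) (by norm_num)
      linarith) (by
      rw [div_le_iff₀ (by positivity)]
      have h1 : 1 ≤ L ^ 100 := one_le_pow₀ hL1
      have h2 : 1 ≤ L ^ 15 := one_le_pow₀ hL1
      have h3 : S ≤ S * L ^ 100 := le_mul_of_one_le_right hS0 h1
      have h4 : (N : ℝ) ≤ N * L ^ 15 := le_mul_of_one_le_right hNpos.le h2
      linarith only [h3, h4, hSup]) hncN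
  set n1 : ℕ := ⌈L ^ 10 * N / (S / L ^ 15)⌉₊ with hn1
  have hval : L ^ 10 * N / (S / L ^ 15) = L ^ 25 * N / S := by
    field_simp
  have hn1b : (n1 : ℝ) ≤ L ^ 25 * N / S + 1 := by
    have h2 := Nat.ceil_lt_add_one (a := L ^ 10 * N / (S / L ^ 15)) (by positivity)
    rw [hval] at h2
    have e : (n1 : ℝ) = (⌈L ^ 25 * (N : ℝ) / S⌉₊ : ℝ) := by rw [hn1, hval]
    rw [e]
    exact h2.le
  have hn1c : (n1 : ℝ) ≤ c * N := by
    have h1 : L ^ 25 * N / S ≤ c / 4 * N := by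
      rw [div_le_iff₀ hSpos]
      have h2 : 4 / c * L ^ 25 ≤ S := by
        refine le_trans ?_ hSK
        have h3 : L ^ 25 ≤ L ^ 40 := pow_le_pow_right₀ hL1 (by norm_num)
        have h4 : 4 / c ≤ K0 := by linarith
        exact mul_le_mul h4 h3 (by positivity) (by linarith)
      have e : 4 / c * L ^ 25 = 4 * L ^ 25 / c := by ring
      rw [e, div_le_iff₀ hc] at h2
      have h6 := mul_le_mul_of_nonneg_right h2 hNpos.le
      linarith only [h6]
    have h5 : 4 / c ≤ N := by linarith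
    rw [div_le_iff₀ hc] at h5
    linarith only [hn1b, h1, h5]
  have hn1k : n1 ≤ k := by
    have : (n1 : ℝ) ≤ k := by linarith
    exact_mod_cast this
  have hn1k' : n1 ≤ N - k := by
    have h1 : ((N - k : ℕ) : ℝ) = N - k := by
      rw [Nat.cast_sub hk]
    have : (n1 : ℝ) ≤ ((N - k : ℕ) : ℝ) := by
      rw [h1]
      linarith
    exact_mod_cast this
  have hn11 : 1 ≤ n1 := by
    rw [hn1]
    exact Nat.ceil_pos.2 (by positivity)
  -- two stages
  have hmodl : ∀ x, 1 ≤ x → x < N → l x ≤ modl N l x := fun x _ _ => le_max_left _ _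
  set M2 : ℕ := 3 * ⌈8 * (N : ℝ) * L ^ 12 * (S / L ^ 15)⌉₊ * n with hM2
  have hstage := dt3_two (N := N) (k := k) (n := n) (n1 := n1) (m := m1) (M2 := M2) (r := r)
    (l := l) (l' := modl N l) (σ := σ) (a := (N : ℝ) ^ (-6 : ℝ)) (b := (N : ℝ) ^ (-5 : ℝ)) hC hR hk
    hE.adm hGE.adm hmodl hσ (Real.rpow_nonneg hNpos.le _)
    (by
      refine le_trans (pr_mono_sector hE.adm (k := k) _ m1 ?_ (ht_bot_zero hk)) hH2
      intro ξ hξ hno
      have e := ht_cnt ξ (Nat.zero_le (N - k)) (by omega : N - k ≤ N)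
      rw [hξ] at e
      have hno' : n < cnt ξ 0 (N - k) := hno
      refine ⟨N - k, by omega, ?_⟩
      have e2 : min k (N - (N - k)) = k := by omega
      rw [e2]
      have h1 : ht ξ (N - k) + n < k := by omega
      have h2 : ((ht ξ (N - k) + n : ℕ) : ℝ) < k := by exact_mod_cast h1
      rw [Nat.cast_add] at h2
      have h3 : (m0 : ℝ) + 2 * (Real.sqrt (t + 1) * L ^ 2) ≤ n := by
        rw [hn]
        exact Nat.le_ceil _
      linarith only [h2, h3])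
    (by
      intro η h1 h2
      refine le_trans (pr_mono hGE.adm _ _ ?_ η) (hσ2 η h1 h2)
      intro ξ hξ
      have h3 : n1 < cnt ξ 0 (N - k) := hξ
      have h4 : (n1 : ℝ) < cnt ξ 0 (N - k) := by exact_mod_cast h3
      have h5 : L ^ 10 * N / (S / L ^ 15) ≤ n1 := Nat.le_ceil _
      exact lt_of_le_of_lt h5 h4)
  have hzet : pr r l (fun _ => full N) (m1 + M2) {ξ | ¬ hle 0 (zet N 0 N (N - k) n1) ξ} (bot N k) ≤
      (N : ℝ) ^ (-6 : ℝ) + (N : ℝ) ^ (-5 : ℝ) := by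
    refine le_trans (pr_mono_sector hE.adm (k := k) _ _ ?_ (ht_bot_zero hk)) hstage
    intro ξ hξ hno
    show n1 < cnt ξ 0 (N - k)
    by_contra hcon
    exact hno (dt3_zet hk hn1k hn1k' hξ (by omega))
  obtain ⟨g1, g2, g3, g4⟩ := hG' N k r l w m0 η0 as Cs C1 c1 (ε / 32) hNb hη hE
  have has := hE.as1
  have key := hF' N k r l (modl N l) 0 N w n1 (m1 + M2) (as + 1) ((N : ℝ) ^ γ * (as + 1))
    ((N : ℝ) ^ (-6 : ℝ) + (N : ℝ) ^ (-5 : ℝ)) hNa hk hE.adm g1 hmodl hE.m0w hn11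
    (by omega) (by omega) (by linarith) le_rfl (by linarith) hE.loc
    (add_nonneg (Real.rpow_nonneg hNpos.le _) (Real.rpow_nonneg hNpos.le _)) hzet
  -- the extra time
  set S1 : ℝ := ∑ y ∈ Finset.Ico 0 (N - k), atl r (modl N l) η0 w y with hS1
  set S2 : ℝ := ∑ y ∈ Finset.Ico (N - N) k, atl (mirr N r) (mirr N (modl N l)) η0 w y with hS2
  have hmax : max S1 S2 ≤ (C1 + 1) * N := max_le g3 g4
  have hdur : (M2 : ℝ) ≤ δ / 2 * m1 := by
    have h1 := dt3_dur (t := (⌈8 * (N : ℝ) * L ^ 12 * (S / L ^ 15)⌉₊ : ℝ)) (n := (n : ℝ)) hL2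
      (by linarith : 1 ≤ S) hNpos hδ (by linarith) (by
        refine le_trans ?_ hKN
        exact mul_le_mul_of_nonneg_right (by linarith) (by linarith)) (Nat.cast_nonneg n) hnb
      (Nat.ceil_lt_add_one (by positivity)).le
    rw [hm1, ← hSS]
    have e : (M2 : ℝ) = 3 * (⌈8 * (N : ℝ) * L ^ 12 * (S / L ^ 15)⌉₊ : ℝ) * (n : ℝ) := by
      rw [hM2]
      push_cast
      ring
    rw [e]
    exact h1
  have hfin := dt3_fin (L := L) (S := S) (Nr := (N : ℝ)) (δ := δ) (g := (N : ℝ) ^ γ) (as := as)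
    (n1 := (n1 : ℝ)) hL2 hSpos hNpos hδ hSup hn1b has (by
      refine le_trans ?_ lγ
      exact mul_le_mul_of_nonneg_right (by linarith) (by linarith)) (by
      have e1 : (N : ℝ) ^ (1 + 2 * γ) = N * ((N : ℝ) ^ γ * (N : ℝ) ^ γ) := by
        rw [← Real.rpow_add hNpos, ← Real.rpow_one_add' hNpos.le (by positivity)]
        congr 1
        ring
      have e2 : t ^ (3 / 2 : ℝ) = S ^ 3 := by
        rw [← hSS, ← Real.rpow_natCast S 2, ← Real.rpow_mul hS0, ← Real.rpow_natCast S 3]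
        norm_num
      rw [e1, e2] at ht3
      exact ht3)
  rw [hSS] at hfin
  have htN : (N : ℝ) * K0 ≤ t := by
    have h1 : (N : ℝ) ^ (9 / 8 : ℝ) = N * (N : ℝ) ^ (1 / 8 : ℝ) := by
      rw [← Real.rpow_one_add' hNpos.le (by norm_num)]
      norm_num
    rw [h1] at ht1
    have h2 : (N : ℝ) ^ (1 / 100 : ℝ) ≤ (N : ℝ) ^ (1 / 8 : ℝ) :=
      Real.rpow_le_rpow_of_exponent_le (by linarith) (by norm_num)
    have h3 : (N : ℝ) * K0 ≤ N * (N : ℝ) ^ (1 / 8 : ℝ) :=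
      mul_le_mul_of_nonneg_left (by linarith) hNpos.le
    linarith
  have hCf2 : Cf ≤ δ / 8 * t := by
    have h0 : 8 * Cf / δ ≤ K0 := by linarith only [hK0, q1, q2, q3, q5]
    have h2 : K0 ≤ N * K0 :=
      le_mul_of_one_le_left (by linarith only [hK64]) (by linarith only [hNr])
    have h1 : 8 * Cf / δ ≤ t := by linarith only [h0, h2, htN]
    rw [div_le_iff₀ hδ] at h1
    linarith
  have hC2 : 16 * ((C1 + 1) * N) ≤ δ / 8 * t := by
    have h1 : (N : ℝ) * (128 * (C1 + 1) / δ) ≤ t := by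
      refine le_trans ?_ htN
      exact mul_le_mul_of_nonneg_left (by linarith) hNpos.le
    have h2 : (N : ℝ) * (128 * (C1 + 1) / δ) = 128 * (C1 + 1) * N / δ := by ring
    rw [h2, div_le_iff₀ hδ] at h1
    linarith
  have hX : 2 * (N : ℝ) * (16 * (max S1 S2 + (3 * n1 + 5) * ((N : ℝ) ^ γ * (as + 1))) + Cf) ≤
      δ / 2 * m1 := by
    have h1 : 16 * (max S1 S2 + (3 * n1 + 5) * ((N : ℝ) ^ γ * (as + 1))) + Cf ≤ δ / 2 * t := by
      linarith
    rw [hm1]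
    have h2 := mul_le_mul_of_nonneg_left h1 (by positivity : (0 : ℝ) ≤ 2 * N)
    linarith
  have hceil2 : m1 + M2 + ⌈2 * (N : ℝ) * (16 * (max S1 S2 +
      (3 * n1 + 5) * ((N : ℝ) ^ γ * (as + 1))) + Cf)⌉₊ ≤ ⌈(1 + δ) * (m1 : ℝ)⌉₊ := by
    have h0 : 0 ≤ 2 * (N : ℝ) * (16 * (max S1 S2 +
      (3 * n1 + 5) * ((N : ℝ) ^ γ * (as + 1))) + Cf) := by
      have : 0 ≤ max S1 S2 := by
        refine le_trans ?_ (le_max_left _ _)
        rw [hS1]
        apply Finset.sum_nonneg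
        intro y hy
        unfold atl
        apply Finset.sum_nonneg
        intro d _
        unfold RR
        have hyN : y < N - k := (Finset.mem_Ico.1 hy).2
        have hp : 0 ≤ ∏ b ∈ Finset.Ioc (y - d) y, modl N l b / r b := by
          apply Finset.prod_nonneg
          intro b hb
          rw [Finset.mem_Ioc] at hb
          have := hGE.adm b (by omega) (by omega)
          exact div_nonneg this.2.2.1 this.1.le
        have hr : 0 < r (y + 1) := by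
          by_cases h : y + 1 < N
          · exact (hE.adm (y + 1) (by omega) h).1
          · exact (hGE.pos (y + 1)).1
        positivity
      positivity
    have h1 : ⌈2 * (N : ℝ) * (16 * (max S1 S2 +
      (3 * n1 + 5) * ((N : ℝ) ^ γ * (as + 1))) + Cf)⌉₊ + M2 ≤ ⌈δ * (m1 : ℝ)⌉₊ := by
      rw [← Nat.ceil_add_natCast h0]
      apply Nat.ceil_mono
      linarith
    have h2 : ⌈(1 + δ) * (m1 : ℝ)⌉₊ = ⌈δ * (m1 : ℝ)⌉₊ + m1 := by
      rw [← Nat.ceil_add_natCast (by positivity)]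
      congr 1
      ring
    omega
  have hanti := dt1_nohit_anti hE.adm (full N) {top N k} (bot N k) hceil2
  refine hanti.trans (key.trans ?_)
  have h6 : (N : ℝ) ^ (-6 : ℝ) ≤ (N : ℝ) ^ (-5 : ℝ) :=
    Real.rpow_le_rpow_of_exponent_le (by linarith) (by norm_num)
  linarith

end Pool.Agent.Helper98.EX
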